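import Pool.Agent.Lib.MP_617207_lc.Proof

set_option autoImplicit false

namespace Pool.Agent.Results.MP_617207_lc.LinearLowerBound

open Pool.Agent.Lib.MP_617207_lc

/-- For all `K ≤ k` (with `k ≥ 2`) there is a network on `n = K * k` vertices (so `n / k = K`) such
that every deterministic adaptive algorithm which on all (pairwise distinct, positive) capacities
uses at most `m` vantage points and reveals at least `OPT(G, c, k)` capacities has `m ≥ n / 6`. -/
theorem result (K k : ℕ) (hK : 1 ≤ K) (hKk : K ≤ k) (hk : 2 ≤ k) :
    ∃ N : Network (Fin k × Fin K), ∀ (A : Strategy (Fin k × Fin K)) (m : ℕ),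
      (∀ c : Sym2 (Fin k × Fin K) → ℝ, (∀ e, 0 < c e) → Function.Injective c →
        Succeeds N A k m c) →
      K * k ≤ 6 * m :=
  ⟨rookNet k K, main_lower hK hKk hk⟩

end Pool.Agent.Results.MP_617207_lc.LinearLowerBound
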